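import Pool.Agent.Y63.NV.Stm

/-! Characters and subgroups: the statement `S_TRL`. -/

set_option autoImplicit false

open scoped Classical

noncomputable section

namespace Pool.Agent.Y210.NV2

open Pool.Agent.Y63.NV

theorem irred_comp {F G H V : Type*} [Field F] [Group G] [Group H] [AddCommGroup V] [Module F V]
    (ρ : Representation F H V) (e : G ≃* H) (h : ρ.IsIrreducible) :
    Representation.IsIrreducible (ρ.comp e.toMonoidHom : Representation F G V) := by
  let f : Subrepresentation (ρ.comp e.toMonoidHom : Representation F G V) ≃o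
      Subrepresentation ρ :=
    { toFun := fun W => ⟨W.toSubmodule, fun g v hv => by
        have := W.apply_mem_toSubmodule (e.symm g) hv
        simpa using this⟩
      invFun := fun W => ⟨W.toSubmodule, fun g v hv => W.apply_mem_toSubmodule (e g) hv⟩
      left_inv := fun W => rfl
      right_inv := fun W => rfl
      map_rel_iff' := Iff.rfl }
  exact (OrderIso.isSimpleOrder_iff f).2 h

theorem irrTrace_comp {F : Type} [Field F] {A B : Type} [Group A] [Group B] (e : A ≃* B)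
    {φ : B → F} (h : IsIrrTrace φ) : IsIrrTrace (fun x => φ (e x)) := by
  obtain ⟨V, i1, i2, i3, ρ, h1, h2⟩ := h
  refine ⟨V, i1, i2, i3, ρ.comp e.toMonoidHom, irred_comp ρ e h1, ?_⟩
  funext x
  rw [h2]
  rfl

theorem lnum_congr {F : Type} [Field F] {Γ₁ Γ₂ : Type} [Group Γ₁] [Group Γ₂]
    (N₁ H₁ : Subgroup Γ₁) (N₂ H₂ : Subgroup Γ₂) (z₁ : Γ₁ → F) (z₂ : Γ₂ → F) (c : F)
    (e : N₁ ≃* N₂) (hz : ∀ x : N₁, z₂ (e x) = z₁ x)
    (hinv : ∀ φ : N₂ → F, IsInvUnder H₂ φ ↔ IsInvUnder H₁ (fun x => φ (e x))) :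
    Lnum N₁ H₁ z₁ c = Lnum N₂ H₂ z₂ c := by
  unfold Lnum
  refine (Nat.card_congr (Equiv.subtypeEquiv
    (Equiv.arrowCongr e.symm.toEquiv (Equiv.refl F)) ?_)).symm
  intro φ
  have h1 : IsIrrTrace φ ↔ IsIrrTrace (fun x => φ (e x)) := by
    refine ⟨irrTrace_comp e, fun h => ?_⟩
    have h2 := irrTrace_comp e.symm h
    simpa using h2
  have h3 : (∀ x : N₂, ∑ᶠ g : N₂, z₂ g * φ (g * x) = c * φ x) ↔
      ∀ x : N₁, ∑ᶠ g : N₁, z₁ g * φ (e (g * x)) = c * φ (e x) := by
    have h4 : ∀ x : N₁, ∑ᶠ g : N₁, z₁ g * φ (e (g * x)) = ∑ᶠ g : N₂, z₂ g * φ (g * e x) := by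
      intro x
      rw [← finsum_comp_equiv e.toEquiv]
      refine finsum_congr fun g => ?_
      rw [map_mul, ← hz g]
      rfl
    constructor
    · intro h x
      rw [h4, h]
    · intro h x
      have h5 := h (e.symm x)
      rw [h4, MulEquiv.apply_symm_apply] at h5
      exact h5
  rw [h1, hinv φ, h3]
  rfl

theorem trl : S_TRL := by
  intro F _ Γ _ _ G H _ z c hGH
  unfold Lsum
  rw [if_pos hGH, if_pos (by simp), Subgroup.card_top]
  congr 2
  let e : ↥(G ⊓ H) ≃* ↥(G.subgroupOf H ⊓ ⊤) :=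
    { toFun := fun x => ⟨⟨x.1, x.2.2⟩, ⟨x.2.1, trivial⟩⟩
      invFun := fun y => ⟨y.1.1, ⟨y.2.1, y.1.2⟩⟩
      left_inv := fun _ => rfl
      right_inv := fun _ => rfl
      map_mul' := fun _ _ => rfl }
  refine lnum_congr _ _ _ _ _ _ c e (fun _ => rfl) fun φ => ⟨?_, ?_⟩
  · intro h g hg x y hxy
    exact h ⟨g, hg⟩ trivial (e x) (e y) (Subtype.ext hxy)
  · intro h g _ x y hxy
    exact h g.1 g.2 (e.symm x) (e.symm y) (congrArg Subtype.val hxy)

end Pool.Agent.Y210.NV2
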