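import Pool.Agent.Y63.NV.Stm
import Pool.Agent.TH189.Aut2

/-! Weights and quotients by normal `p`-subgroups: the statement `S_NQ`. -/

set_option autoImplicit false

open scoped Classical

noncomputable section

namespace Pool.Agent.Y210.NV3

open Pool.Agent.Y63.NV
open Pool.Agent.Y63.AWC (IsIrreducibleCharacter)

section

variable {J K : Type} [Group J] [Group K] (π : J →* K) (hπ : Function.Surjective π)

include hπ

theorem irred_comp_iff {F V : Type*} [Field F] [AddCommGroup V] [Module F V]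
    (ρ : Representation F K V) :
    Representation.IsIrreducible (ρ.comp π : Representation F J V) ↔ ρ.IsIrreducible := by
  let f : Subrepresentation (ρ.comp π : Representation F J V) ≃o Subrepresentation ρ :=
    { toFun := fun W => ⟨W.toSubmodule, fun k v hv => by
        obtain ⟨g, rfl⟩ := hπ k
        exact W.apply_mem_toSubmodule g hv⟩
      invFun := fun W => ⟨W.toSubmodule, fun g v hv => W.apply_mem_toSubmodule (π g) hv⟩
      left_inv := fun W => rfl
      right_inv := fun W => rfl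
      map_rel_iff' := Iff.rfl }
  exact OrderIso.isSimpleOrder_iff f

theorem surj_spec (x : J) : Function.surjInv hπ (π x) * x⁻¹ ∈ π.ker := by
  rw [MonoidHom.mem_ker, map_mul, Function.surjInv_eq hπ, map_inv, mul_inv_cancel]

theorem card_comap [Finite J] (Q : Subgroup K) :
    Nat.card (Q.comap π) = Nat.card π.ker * Nat.card Q := by
  have hK : Finite K := Finite.of_surjective π hπ
  have h1 := Subgroup.card_mul_index (Q.comap π)
  have h2 := Subgroup.card_mul_index π.ker
  have h3 := Subgroup.card_mul_index Q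
  rw [Subgroup.index_comap_of_surjective Q hπ] at h1
  rw [Subgroup.index_ker, MonoidHom.range_eq_top.2 hπ, Subgroup.card_top] at h2
  have h4 : Q.index ≠ 0 := Subgroup.index_ne_zero_of_finite
  have h5 : Nat.card (Q.comap π) * Q.index = (Nat.card π.ker * Nat.card Q) * Q.index := by
    rw [h1, ← h2, ← h3, mul_assoc]
  exact Nat.eq_of_mul_eq_mul_right (Nat.pos_of_ne_zero h4) h5

theorem card_dom [Finite J] : Nat.card J = Nat.card π.ker * Nat.card K := by
  have h2 := Subgroup.card_mul_index π.ker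
  rw [Subgroup.index_ker, MonoidHom.range_eq_top.2 hπ, Subgroup.card_top] at h2
  exact h2.symm

/-- inflation of characters -/
theorem irr_comp {χ : K → ℂ} (h : IsIrreducibleCharacter χ) :
    IsIrreducibleCharacter (fun x => χ (π x)) := by
  obtain ⟨V, i1, i2, i3, ρ, h1, h2⟩ := h
  refine ⟨V, i1, i2, i3, ρ.comp π, (irred_comp_iff π hπ ρ).2 h1, ?_⟩
  funext x
  rw [h2]
  rfl

/-- characters which are constant on the cosets of the kernel -/
theorem irr_desc [Finite J] {χ : J → ℂ} (h : IsIrreducibleCharacter χ)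
    (hk : ∀ q ∈ π.ker, ∀ x, χ (q * x) = χ x) :
    ∃ χ' : K → ℂ, IsIrreducibleCharacter χ' ∧ χ = fun x => χ' (π x) := by
  obtain ⟨V, i1, i2, i3, ρ, h1, h2⟩ := h
  have hker : ∀ q ∈ π.ker, ρ q = 1 := by
    intro q hq
    refine Pool.Agent.TH189.Aut.eq_one_of_trace (ρ q) (Nat.card J) Nat.card_pos ?_ ?_
    · rw [← map_pow, pow_card_eq_one', map_one]
    · have h3 := hk q hq 1
      rw [mul_one, h2] at h3
      have h4 : ρ.character q = LinearMap.trace ℂ V (ρ q) := rfl
      rw [← h4, h3]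
      have h5 : ρ.character 1 = LinearMap.trace ℂ V (ρ 1) := rfl
      rw [h5, map_one]
      exact LinearMap.trace_one ℂ V
  have hfac : ∀ x y : J, π x = π y → ρ x = ρ y := by
    intro x y hxy
    have h3 : x * y⁻¹ ∈ π.ker := by
      rw [MonoidHom.mem_ker, map_mul, hxy, map_inv, mul_inv_cancel]
    have h4 : x = (x * y⁻¹) * y := by group
    rw [h4, map_mul, hker _ h3, one_mul]
  obtain ⟨ρ', hρ'⟩ : ∃ ρ' : Representation ℂ K V, ∀ x : J, ρ' (π x) = ρ x := by
    refine ⟨{ toFun := fun k => ρ (Function.surjInv hπ k), map_one' := ?_, map_mul' := ?_ }, ?_⟩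
    · rw [← map_one ρ]
      exact hfac _ _ (by rw [Function.surjInv_eq hπ, map_one])
    · intro k l
      rw [← map_mul ρ]
      exact hfac _ _ (by rw [map_mul, Function.surjInv_eq hπ, Function.surjInv_eq hπ,
        Function.surjInv_eq hπ])
    · intro x
      exact hfac _ _ (Function.surjInv_eq hπ _)
  have hcomp : (ρ'.comp π : Representation ℂ J V) = ρ := by
    ext x : 1
    exact hρ' x
  refine ⟨ρ'.character, ⟨V, i1, i2, i3, ρ', (irred_comp_iff π hπ ρ').1 (by rw [hcomp]; exact h1),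
    rfl⟩, ?_⟩
  rw [h2]
  funext x
  show LinearMap.trace ℂ V (ρ x) = LinearMap.trace ℂ V (ρ' (π x))
  rw [hρ']

/-- weights and inflation -/
theorem wt_iff [Finite J] (p : ℕ) (Q : Subgroup K) (χ : K → ℂ) :
    IsWt p (Q.comap π) (fun x => χ (π x)) ↔ IsWt p Q χ := by
  have hK : Finite K := Finite.of_surjective π hπ
  have hc1 := card_comap π hπ Q
  have hc2 := card_dom π hπ
  have n1 : Nat.card π.ker ≠ 0 := Nat.card_pos.ne'
  have n2 : Nat.card Q ≠ 0 := Nat.card_pos.ne'
  have n3 : Nat.card K ≠ 0 := Nat.card_pos.ne'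
  have hdz : (∃ n : ℕ, χ (π 1) = (n : ℂ) ∧ n.factorization p +
      (Nat.card (Q.comap π)).factorization p = (Nat.card J).factorization p) ↔
      ∃ n : ℕ, χ 1 = (n : ℂ) ∧
        n.factorization p + (Nat.card Q).factorization p = (Nat.card K).factorization p := by
    rw [map_one, hc1, hc2, Nat.factorization_mul n1 n2, Nat.factorization_mul n1 n3]
    refine exists_congr fun n => and_congr_right fun _ => ?_
    rw [Finsupp.add_apply, Finsupp.add_apply]
    omega
  constructor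
  · intro h
    obtain ⟨χ', h1, h2⟩ := irr_desc π hπ h.irr (fun q hq x => h.inflated q (by
      rw [Subgroup.mem_comap, MonoidHom.mem_ker.1 hq]; exact Q.one_mem) x)
    have h3 : χ = χ' := by
      funext y
      obtain ⟨x, rfl⟩ := hπ y
      exact congrFun h2 x
    refine ⟨h3 ▸ h1, ?_, hdz.1 h.defectZero⟩
    intro q hq y
    obtain ⟨u, rfl⟩ := hπ q
    obtain ⟨x, rfl⟩ := hπ y
    rw [← map_mul]
    exact h.inflated u hq x
  · intro h
    refine ⟨irr_comp π hπ h.irr, ?_, hdz.2 h.defectZero⟩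
    intro q hq x
    show χ (π (q * x)) = χ (π x)
    rw [map_mul]
    exact h.inflated _ hq _

theorem wt_exists (p : ℕ) (Q : Subgroup K) {χ : J → ℂ} (h : IsWt p (Q.comap π) χ) :
    ∃ χ' : K → ℂ, χ = fun x => χ' (π x) := by
  refine ⟨fun y => χ (Function.surjInv hπ y), ?_⟩
  funext x
  have h1 : Function.surjInv hπ (π x) * x⁻¹ ∈ Q.comap π := by
    rw [Subgroup.mem_comap, MonoidHom.mem_ker.1 (surj_spec π hπ x)]
    exact Q.one_mem
  have h2 := h.inflated _ h1 x
  rw [inv_mul_cancel_right] at h2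
  exact h2.symm

/-- the number of weights and inflation -/
theorem nw_comap (h1 : S_INF) [Finite J] (p : ℕ) {F : Type} [Field F]
    (red : integralClosure ℤ ℂ →+* F) (Q : Subgroup K) (f : J → F) (hf : IsClassFun f) (c : F) :
    Nw p red (Q.comap π) f c =
      Nw p red Q (fun y => ∑ᶠ x : J, if π x = y then f x else 0) c := by
  have hK : Finite K := Finite.of_surjective π hπ
  unfold Nw
  symm
  refine Nat.card_congr (Equiv.ofBijective
    (fun χ => ⟨fun x => χ.1 (π x), (wt_iff π hπ p Q χ.1).2 χ.2.1, ?_⟩) ⟨?_, ?_⟩)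
  · rw [h1 F red J K π χ.1 f hπ χ.2.1.irr hf]
    exact χ.2.2
  · intro χ χ' h
    apply Subtype.ext
    funext y
    obtain ⟨x, rfl⟩ := hπ y
    exact congrFun (congrArg Subtype.val h) x
  · rintro ⟨χ, h2, h3⟩
    obtain ⟨χ', rfl⟩ := wt_exists π hπ p Q h2
    have h4 := (wt_iff π hπ p Q χ').1 h2
    refine ⟨⟨χ', h4, ?_⟩, rfl⟩
    rw [← h1 F red J K π χ' f hπ h4.irr hf]
    exact h3

end

section

variable {Γ : Type} [Group Γ] [Finite Γ] (M : Subgroup Γ) [M.Normal]

/-- the restriction of the projection -/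
def pr (K : Subgroup (Γ ⧸ M)) : ↥(K.comap (QuotientGroup.mk' M)) →* K where
  toFun x := ⟨QuotientGroup.mk' M x.1, x.2⟩
  map_one' := Subtype.ext (map_one _)
  map_mul' x y := Subtype.ext (map_mul _ _ _)

theorem pr_surj (K : Subgroup (Γ ⧸ M)) : Function.Surjective (pr M K) := by
  rintro ⟨y, hy⟩
  obtain ⟨x, rfl⟩ := QuotientGroup.mk'_surjective M y
  exact ⟨⟨x, hy⟩, rfl⟩

theorem nw_quot (h1 : S_INF) (p : ℕ) {F : Type} [Field F]
    (red : integralClosure ℤ ℂ →+* F) (K Q : Subgroup (Γ ⧸ M)) (z : Γ → F)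
    (hz : ∀ g x : Γ, z (g * x * g⁻¹) = z x) (c : F) :
    Nw p red ((Q.comap (QuotientGroup.mk' M)).subgroupOf (K.comap (QuotientGroup.mk' M)))
      (fun x => z x) c = Nw p red (Q.subgroupOf K) (fun x => push M z x) c := by
  have e1 : (Q.comap (QuotientGroup.mk' M)).subgroupOf (K.comap (QuotientGroup.mk' M)) =
      (Q.subgroupOf K).comap (pr M K) := by
    ext x
    rfl
  rw [e1, nw_comap (pr M K) (pr_surj M K) h1 p red (Q.subgroupOf K) _ (fun g x => hz g x) c]
  congr 1
  funext y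
  unfold push
  have e2 : ∀ g : Γ, (if (g : Γ ⧸ M) = (y : Γ ⧸ M) then z g else 0) =
      ∑ᶠ (_ : g ∈ K.comap (QuotientGroup.mk' M)),
        (if (g : Γ ⧸ M) = (y : Γ ⧸ M) then z g else 0) := by
    intro g
    rw [finsum_eq_if]
    by_cases hg : g ∈ K.comap (QuotientGroup.mk' M)
    · rw [if_pos hg]
    · rw [if_neg hg, if_neg]
      intro h
      apply hg
      show QuotientGroup.mk' M g ∈ K
      rw [QuotientGroup.mk'_apply, h]
      exact y.2
  rw [finsum_congr e2]
  have e3 := finsum_mem_eq_of_bijOn (M := F) (s := (Set.univ : Set ↥(K.comap (QuotientGroup.mk' M))))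
    (t := ((K.comap (QuotientGroup.mk' M) : Subgroup Γ) : Set Γ))
    (f := fun x => if pr M K x = y then z x else 0)
    (g := fun g : Γ => if (g : Γ ⧸ M) = (y : Γ ⧸ M) then z g else 0) Subtype.val
    ⟨fun x _ => x.2, Subtype.val_injective.injOn, fun g hg => ⟨⟨g, hg⟩, trivial, rfl⟩⟩ ?_
  · rw [finsum_mem_univ] at e3
    refine (finsum_congr fun x => ?_).trans (e3.trans (finsum_congr fun x => finsum_congr fun _ => ?_))
    · by_cases hx : pr M K x = y
      · rw [if_pos hx, if_pos hx]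
      · rw [if_neg hx, if_neg hx]
    · rfl
  · intro x _
    have : pr M K x = y ↔ ((x : Γ) : Γ ⧸ M) = (y : Γ ⧸ M) :=
      ⟨fun h => congrArg Subtype.val h, fun h => Subtype.ext h⟩
    simp only [this]

theorem nw_zero (h2 : S_WTN) (p : ℕ) [Fact p.Prime] {F : Type} [Field F]
    (red : integralClosure ℤ ℂ →+* F) (hM : IsPGroup p M) (Q : Subgroup Γ) (hQ : IsPGroup p Q)
    (hMQ : ¬ M ≤ Q) (f : ↥(⊤ ⊓ Subgroup.normalizer (Q : Set Γ)) → F) (c : F) :
    Nw p red (Q.subgroupOf (⊤ ⊓ Subgroup.normalizer (Q : Set Γ))) f c = 0 := by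
  unfold Nw
  have hP : IsPGroup p ↥(Q ⊔ M) := IsPGroup.to_sup_of_normal_right hQ hM
  have hnil : Group.IsNilpotent ↥(Q ⊔ M) := hP.isNilpotent
  have hlt : Q.subgroupOf (Q ⊔ M) < ⊤ := by
    rw [lt_top_iff_ne_top, Ne, Subgroup.subgroupOf_eq_top]
    intro h
    exact hMQ (le_sup_right.trans h)
  obtain ⟨x, hx1, hx2⟩ := SetLike.exists_of_lt
    (Group.normalizerCondition_of_isNilpotent (Q.subgroupOf (Q ⊔ M)) hlt)
  rw [Subgroup.mem_normalizer_iff] at hx1
  have hxN : (x : Γ) ∈ Subgroup.normalizer (Q : Set Γ) := by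
    rw [Subgroup.mem_normalizer_iff]
    intro h
    constructor
    · intro hh
      exact (hx1 ⟨h, le_sup_left (a := Q) (b := M) hh⟩).1 hh
    · intro hh
      have h3 : h ∈ Q ⊔ M := by
        have h4 : h = (x : Γ)⁻¹ * ((x : Γ) * h * (x : Γ)⁻¹) * (x : Γ) := by group
        rw [h4]
        exact (Q ⊔ M).mul_mem ((Q ⊔ M).mul_mem ((Q ⊔ M).inv_mem x.2)
          (le_sup_left (a := Q) (b := M) hh)) x.2
      exact (hx1 ⟨h, h3⟩).2 hh
  have hno : ∀ χ : ↥(⊤ ⊓ Subgroup.normalizer (Q : Set Γ)) → ℂ,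
      ¬ IsWt p (Q.subgroupOf (⊤ ⊓ Subgroup.normalizer (Q : Set Γ))) χ := by
    intro χ
    refine h2 p _ _ ((Q ⊔ M).subgroupOf (⊤ ⊓ Subgroup.normalizer (Q : Set Γ))) χ ⟨?_⟩ ⟨?_⟩ ?_ ?_
    · intro n hn g
      exact (Subgroup.mem_normalizer_iff.1 g.2.2 n).1 hn
    · intro n hn g
      have hn' : (n : Γ) ∈ Q ⊔ M := hn
      show (g : Γ) * (n : Γ) * (g : Γ)⁻¹ ∈ Q ⊔ M
      rw [← SetLike.mem_coe, Subgroup.mul_normal, Set.mem_mul] at hn'
      obtain ⟨q, hq, m, hm, hqm⟩ := hn'
      have h5 : (g : Γ) * (n : Γ) * (g : Γ)⁻¹ =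
          ((g : Γ) * q * (g : Γ)⁻¹) * ((g : Γ) * m * (g : Γ)⁻¹) := by
        rw [← hqm]
        group
      rw [h5]
      refine (Q ⊔ M).mul_mem (le_sup_left (a := Q) (b := M) ?_) (le_sup_right (a := Q) (b := M) ?_)
      · exact (Subgroup.mem_normalizer_iff.1 g.2.2 q).1 hq
      · exact Subgroup.Normal.conj_mem inferInstance m hm g
    · exact hP.comap_of_injective (⊤ ⊓ Subgroup.normalizer (Q : Set Γ)).subtype
        Subtype.val_injective
    · rw [SetLike.lt_iff_le_and_exists]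
      refine ⟨fun y hy => le_sup_left (a := Q) (b := M) hy, ⟨x, trivial, hxN⟩, x.2, hx2⟩
  rw [Nat.card_eq_zero]
  exact Or.inl ⟨fun χ => hno χ.1 χ.2.1⟩

end

theorem nq (h1 : S_INF) (h2 : S_WTN) : S_NQ := by
  intro p _ F _ _ red Γ _ _ G M _ _ z hM hz c
  have hsurj := QuotientGroup.mk'_surjective M
  have hker : (QuotientGroup.mk' M).ker = M := QuotientGroup.ker_mk' M
  have hinj : Function.Injective (fun Q : Subgroup (Γ ⧸ M) => Q.comap (QuotientGroup.mk' M)) :=
    Subgroup.comap_injective hsurj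
  unfold Wsum
  obtain ⟨W, hW⟩ : ∃ W : Subgroup Γ → ℤ, W = fun Q : Subgroup Γ =>
      if IsPGroup p Q ∧ Q ≤ ⊤ ∧ G ⊔ Q = ⊤ then
        (Nat.card ↥(⊤ ⊓ Subgroup.normalizer (Q : Set Γ)) : ℤ) *
          Nw p red (Q.subgroupOf (⊤ ⊓ Subgroup.normalizer (Q : Set Γ))) (fun x => z x) c else 0 :=
    ⟨_, rfl⟩
  have hzero : ∀ Q : Subgroup Γ,
      Q ∉ Set.range (fun Q : Subgroup (Γ ⧸ M) => Q.comap (QuotientGroup.mk' M)) → W Q = 0 := by
    intro Q hQ
    rw [hW]
    show (if _ then _ else _) = _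
    split_ifs with h
    · have hMQ : ¬ M ≤ Q := by
        intro h3
        apply hQ
        refine ⟨Q.map (QuotientGroup.mk' M), ?_⟩
        show (Q.map (QuotientGroup.mk' M)).comap (QuotientGroup.mk' M) = Q
        rw [Subgroup.comap_map_eq, hker, sup_eq_left.2 h3]
      rw [nw_zero M h2 p red hM Q h.1 hMQ]
      simp
    · rfl
  have hval : ∀ Q : Subgroup (Γ ⧸ M), W (Q.comap (QuotientGroup.mk' M)) = Nat.card M *
      (if IsPGroup p Q ∧ Q ≤ ⊤ ∧ G.map (QuotientGroup.mk' M) ⊔ Q = ⊤ then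
        (Nat.card ↥(⊤ ⊓ Subgroup.normalizer (Q : Set (Γ ⧸ M))) : ℤ) *
          Nw p red (Q.subgroupOf (⊤ ⊓ Subgroup.normalizer (Q : Set (Γ ⧸ M))))
            (fun x => push M z x) c else 0) := by
    intro Q
    rw [hW]
    show (if _ then _ else _) = _
    have c1 : IsPGroup p ↥(Q.comap (QuotientGroup.mk' M)) ↔ IsPGroup p Q := by
      constructor
      · intro h
        have h3 := h.map (QuotientGroup.mk' M)
        rwa [Subgroup.map_comap_eq_self_of_surjective hsurj] at h3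
      · intro h
        exact h.comap_of_ker_isPGroup (QuotientGroup.mk' M) (by rw [hker]; exact hM)
    have c2 : G ⊔ Q.comap (QuotientGroup.mk' M) = ⊤ ↔ G.map (QuotientGroup.mk' M) ⊔ Q = ⊤ := by
      constructor
      · intro h
        have h3 := congrArg (Subgroup.map (QuotientGroup.mk' M)) h
        rwa [Subgroup.map_sup, Subgroup.map_comap_eq_self_of_surjective hsurj,
          Subgroup.map_top_of_surjective _ hsurj] at h3
      · intro h
        have h3 := congrArg (Subgroup.comap (QuotientGroup.mk' M)) h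
        rw [← Subgroup.comap_sup_eq _ _ _ hsurj, Subgroup.comap_map_eq, hker,
          Subgroup.comap_top, sup_assoc] at h3
        have h4 : M ⊔ Q.comap (QuotientGroup.mk' M) = Q.comap (QuotientGroup.mk' M) := by
          rw [sup_eq_right]
          intro m hm
          rw [Subgroup.mem_comap, QuotientGroup.mk'_apply, (QuotientGroup.eq_one_iff m).2 hm]
          exact Q.one_mem
        rwa [h4] at h3
    have c3 : (⊤ ⊓ Subgroup.normalizer ((Q.comap (QuotientGroup.mk' M) : Subgroup Γ) : Set Γ)) =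
        (⊤ ⊓ Subgroup.normalizer (Q : Set (Γ ⧸ M))).comap (QuotientGroup.mk' M) := by
      rw [top_inf_eq, top_inf_eq, Subgroup.comap_normalizer_eq_of_le_range
        (by rw [MonoidHom.range_eq_top.2 hsurj]; exact le_top)]
    have key : ∀ J : Subgroup Γ, J = (⊤ ⊓ Subgroup.normalizer (Q : Set (Γ ⧸ M))).comap
        (QuotientGroup.mk' M) → (Nat.card J : ℤ) *
          Nw p red ((Q.comap (QuotientGroup.mk' M)).subgroupOf J) (fun x => z x) c =
        Nat.card M * ((Nat.card ↥(⊤ ⊓ Subgroup.normalizer (Q : Set (Γ ⧸ M))) : ℤ) *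
          Nw p red (Q.subgroupOf (⊤ ⊓ Subgroup.normalizer (Q : Set (Γ ⧸ M))))
            (fun x => push M z x) c) := by
      rintro _ rfl
      rw [nw_quot M h1 p red _ Q z hz.conj c, card_comap _ hsurj, hker]
      push_cast
      ring
    by_cases hc : IsPGroup p Q ∧ Q ≤ ⊤ ∧ G.map (QuotientGroup.mk' M) ⊔ Q = ⊤
    · rw [if_pos hc, if_pos ⟨c1.2 hc.1, le_top, c2.2 hc.2.2⟩]
      exact key _ c3
    · rw [if_neg hc, if_neg, mul_zero]
      rintro ⟨d1, -, d3⟩
      exact hc ⟨c1.1 d1, le_top, c2.1 d3⟩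
  have e1 : ∑ᶠ Q : Subgroup Γ, W Q = ∑ᶠ Q : Subgroup (Γ ⧸ M), W (Q.comap (QuotientGroup.mk' M)) := by
    rw [← finsum_mem_range hinj (f := W)]
    refine finsum_congr fun Q => ?_
    rw [finsum_eq_if]
    split_ifs with h
    · rfl
    · exact hzero Q h
  rw [hW] at e1
  rw [e1, ← hW]
  rw [finsum_congr hval, ← mul_finsum]

end Pool.Agent.Y210.NV3
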